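import Pool.Agent.H91.Drs1

set_option autoImplicit false

open Pool.Agent.H91.Drs in
theorem Pool.Agent.Results.MP_675b5c_an.First.result :
    ∀ (n : ℕ) (L γ : ℝ) (f g : EuclideanSpace ℝ (Fin n) → ℝ)
    (G : EuclideanSpace ℝ (Fin n) → EuclideanSpace ℝ (Fin n)), 0 < L → 0 < γ →
    γ < (2 * √2 - 1) / L → ConvexOn ℝ Set.univ f → ConvexOn ℝ Set.univ g →
    (∀ x, HasGradientAt f (G x) x) → (∀ x y, ‖G x - G y‖ ≤ L * ‖x - y‖) →
    ∀ ws xs w x y : EuclideanSpace ℝ (Fin n), Pool.Agent.H91.Drs.IsProx γ f ws xs →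
      Pool.Agent.H91.Drs.IsProx γ f w x → Pool.Agent.H91.Drs.IsProx γ g ((2:ℝ) • x - w) y →
      f y + g y - (f xs + g xs) ≤ ‖w - ws‖ ^ 2 / (4 * γ) :=
  main
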